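import Pool.Agent.helper23.CO.Fin2

/-!
# Cutoff for Ising Glauber dynamics is equivalent to Gibbs uniqueness everywhere except at the critical point

Heat bath Glauber dynamics on the tori `(Z/(n+3))^d`, inverse temperature `β ≥ 0`, field `h`.  For `h ≠ 0` and for `d = 1` there
is cutoff and exactly one Gibbs measure on `Z^d`.  For `d ≥ 2` and `h = 0` there is a critical `βc ≥ 0` with cutoff and exactly one
Gibbs measure for `β < βc`, and no cutoff and two different Gibbs measures for every `β > βc`.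

Definitions: `CU.Cutoff`, `CU.dTV`, `CU.glauber`, `CU.gibbs`, `CU.wt`, `CU.sg`, `CU.ev` in
`Pool/Agent/helper23/CU/Model.lean`; `CU.IsGibbs`, `CU.gam`, `CU.glue`, `CU.zwt`, `CU.tE`, `CU.zev` in
`Pool/Agent/helper23/CU/Gibbs.lean`.
-/

namespace Pool.Agent.Results.MP_7c3fb3_pr.CutoffIffUnique

open MeasureTheory CU

/-- Cutoff holds if and only if the Gibbs measure is unique, for all `d ≥ 1`, `β ≥ 0` and `h`, except possibly at the critical
point `h = 0`, `β = βc` of a dimension `d ≥ 2`. -/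
theorem result (d : ℕ) (hd : 1 ≤ d) :
    (∀ β h : ℝ, 0 ≤ β → h ≠ 0 ∨ d = 1 →
      Cutoff d β h ∧ ∃! μ : Measure (ZConf d), IsGibbs d β h μ) ∧
    (2 ≤ d → ∃ βc : ℝ, 0 ≤ βc ∧ βc ≤ Real.log (12 * d - 13) / 2 ∧
      (∀ β : ℝ, 0 ≤ β → β < βc → Cutoff d β 0 ∧ ∃! μ : Measure (ZConf d), IsGibbs d β 0 μ) ∧
      (∀ β : ℝ, βc < β → ¬ Cutoff d β 0 ∧
        ∃ μ ν : Measure (ZConf d), IsGibbs d β 0 μ ∧ IsGibbs d β 0 ν ∧ μ ≠ ν)) :=
  CO.PHASE d hd

end Pool.Agent.Results.MP_7c3fb3_pr.CutoffIffUnique
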